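import Pool.Agent.H59.AB.Char
import Pool.Agent.H59.FD.InstW
import Pool.Agent.H99.AB.Fourier
import Pool.Agent.H22.GW.Defs

/-!
# Project AB, D1: the twisted Kummer relations and inversion stability, density form

* `BadC f c n e p`: for some `Ω` (algebraically closed, characteristic `p`), a family `T v` of at most `n`
  elements, labels `π v ∈ (ℤ/f)ˣ` and a character `χ` with `χ(-1) = (-1)^e` all the relations with
  `m ≡ e (mod 2)` hold, but the weighted symmetry fails.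
* `null_BadC`: density zero, from the gap theorem with weights (`GapWStmt`) and the bridge (`BetaBad`).
-/

open Finset NumberField

namespace H59AB

open H69FD (LL)
open Pool.Agent.FD
open Pool.Agent.H71.FD

open Classical in
/-- the gap theorem with weights -/
def GapWStmt : Prop :=
  ∀ (k : Type) [Field k] [NumberField k] (q : ℕ) (W : ℕ → 𝓞 k),
    (∃ h, 0 < h ∧ h < q ∧ W h ≠ 0) → ∀ ε : ℝ, 0 < ε → ∃ w₀ : ℕ, ∀ w : ℕ, w₀ ≤ w →
    ∃ X₀ : ℕ, ∀ X : ℕ, X₀ ≤ X →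
    ∑ p ∈ (Finset.Icc 1 X).filter (fun p : ℕ => p.Prime ∧ H22GW.BadW k q W w (w ^ 4) p), Real.log p
      ≤ ε * X

/-- the bridge between the sums `beta` and the gap theorem -/
def BetaBad (f c : ℕ) : Prop :=
  ∀ (k : Type) [Field k] [NumberField k] (ψ : (ZMod f)ˣ →* (𝓞 k)ˣ),
    ∃ (q : ℕ) (W : ℕ → 𝓞 k), (∃ h, 0 < h ∧ h < q ∧ W h ≠ 0) ∧ ∃ B : ℕ, ∀ p : ℕ, p.Prime → B < p →
    ∀ (_ : NeZero (f * p)) (Ω : Type) (_ : Field Ω) (_ : CharP Ω p) (φ : 𝓞 k →+* Ω) (w V : ℕ),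
    V + 2 ≤ p → (∀ j, w ≤ j → j < V → ψ (-1) = (-1) ^ j →
      H99AB.beta Ω f p c (j + 1) ((Units.map φ.toMonoidHom).comp ψ) = 0) →
    H22GW.BadW k q W w V p

/-- one character -/
def BadC (f c n e p : ℕ) : Prop :=
  ∃ (_ : NeZero (f * p)) (n' : ℕ), n' ≤ n ∧ ∃ (Ω : Type) (_ : Field Ω) (_ : IsAlgClosed Ω)
    (_ : CharP Ω p) (π : Fin n' → (ZMod f)ˣ) (T : Fin n' → Ω) (χ : (ZMod f)ˣ →* Ωˣ),
    χ (-1) = (-1) ^ e ∧ (∀ v, T v ≠ 0) ∧ (∀ v, T v ≠ 1) ∧
    (¬ SymW e T (fun v => ((χ (π v) : Ωˣ) : Ω))) ∧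
    ∀ m, m % 2 = e % 2 → 2 ≤ m → 2 * m + 1 ≤ p →
      H99AB.beta Ω f p c (m + 1) χ = 0 ∨ ∑ v, ((χ (π v) : Ωˣ) : Ω) * LL m (T v) = 0

section

variable {f c : ℕ} {k : Type} [Field k] [NumberField k]

/-- the vanishing set of the sums for the character `ψ` -/
def ZokC (f c : ℕ) {k : Type} [Field k] [NumberField k] (ψ : (ZMod f)ˣ →* (𝓞 k)ˣ) (p : ℕ)
    (Z : ℕ → Prop) : Prop :=
  ∃ (_ : NeZero (f * p)) (Ω : Type) (_ : Field Ω) (_ : CharP Ω p) (φ : 𝓞 k →+* Ω),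
    ∀ m, Z m → H99AB.beta Ω f p c (m + 1) ((Units.map φ.toMonoidHom).comp ψ) = 0

/-- `(-1)^i = (-1)^j` in the units of a number ring -/
theorem parity_of_eq {i j : ℕ} (h : ((-1 : (𝓞 k)ˣ)) ^ i = (-1) ^ j) : i % 2 = j % 2 := by
  have h1 : ((-1 : 𝓞 k)) ^ i = (-1) ^ j := by
    have := congrArg (fun u : (𝓞 k)ˣ => (u : 𝓞 k)) h
    simpa using this
  rcases Nat.even_or_odd i with hi | hi <;> rcases Nat.even_or_odd j with hj | hj
  · rw [Nat.even_iff.mp hi, Nat.even_iff.mp hj]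
  · rw [hi.neg_one_pow, hj.neg_one_pow] at h1
    exfalso
    have h2 : (2 : 𝓞 k) = 0 := by linear_combination h1
    exact two_ne_zero h2
  · rw [hi.neg_one_pow, hj.neg_one_pow] at h1
    exfalso
    have h2 : (2 : 𝓞 k) = 0 := by linear_combination -h1
    exact two_ne_zero h2
  · rw [Nat.odd_iff.mp hi, Nat.odd_iff.mp hj]

/-- the gap property for the character `ψ` -/
theorem gapG_char (hG : GapWStmt) (hB : BetaBad f c) (ψ : (ZMod f)ˣ →* (𝓞 k)ˣ) (e : ℕ)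
    (he : ψ (-1) = (-1) ^ e) : GapG (fun m => m % 2 = e % 2) (ZokC f c ψ) := by
  classical
  obtain ⟨q, W, hW, B, hbad⟩ := hB k ψ
  refine ⟨4, fun ε hε => ?_⟩
  obtain ⟨w₀, hw₀⟩ := hG k q W hW (ε / 2) (by linarith)
  refine ⟨w₀, fun w hw => ?_⟩
  obtain ⟨X₀, hX₀⟩ := hw₀ w hw
  set B' := max B (w ^ 4 + 2) with hB'
  set C := ∑ p ∈ Icc 1 B', Real.log p with hC
  obtain ⟨X₁, hX₁⟩ := exists_nat_ge (C / (ε / 2))
  refine ⟨max X₀ X₁, fun X hX => ?_⟩
  have h1 := hX₀ X ((le_max_left _ _).trans hX)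
  have h2 : C ≤ ε / 2 * X := by
    have h3 : C / (ε / 2) ≤ X := hX₁.trans (by exact_mod_cast (le_max_right _ _).trans hX)
    rw [div_le_iff₀ (by linarith)] at h3
    linarith
  have hsub : (Icc 1 X).filter (fun p : ℕ => p.Prime ∧ ∃ Z, ZokC f c ψ p Z ∧
      GapZ (fun m => m % 2 = e % 2) w (w ^ 4) Z) ⊆
      Icc 1 B' ∪ (Icc 1 X).filter (fun p : ℕ => p.Prime ∧ H22GW.BadW k q W w (w ^ 4) p) := by
    intro p hp
    rw [mem_filter] at hp
    obtain ⟨hp1, hpp, Z, hZ, hgap⟩ := hp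
    rw [mem_union]
    by_cases hpB : p ≤ B'
    · left
      rw [mem_Icc] at hp1 ⊢
      exact ⟨hp1.1, hpB⟩
    · right
      push Not at hpB
      rw [mem_filter]
      refine ⟨hp1, hpp, ?_⟩
      obtain ⟨hne, Ω, hF, hch, φ, hφ⟩ := hZ
      refine hbad p hpp (lt_of_le_of_lt (le_max_left _ _) hpB) hne Ω hF hch φ w (w ^ 4)
        (le_of_lt (lt_of_le_of_lt (le_max_right _ _) hpB)) fun j hj1 hj2 hj3 => ?_
      apply hφ
      apply hgap j
      · rw [he] at hj3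
        exact (parity_of_eq hj3).symm
      · omega
      · omega
  have h3 : ∑ p ∈ (Icc 1 X).filter (fun p : ℕ => p.Prime ∧ ∃ Z, ZokC f c ψ p Z ∧
      GapZ (fun m => m % 2 = e % 2) w (w ^ 4) Z), Real.log p ≤
      C + ∑ p ∈ (Icc 1 X).filter (fun p : ℕ => p.Prime ∧ H22GW.BadW k q W w (w ^ 4) p), Real.log p := by
    refine (Finset.sum_le_sum_of_subset_of_nonneg hsub fun p _ _ =>
      Real.log_natCast_nonneg p).trans ?_
    rw [hC, ← Finset.sum_union_inter]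
    exact le_add_of_nonneg_right (Finset.sum_nonneg fun p _ => Real.log_natCast_nonneg p)
  calc _ ≤ _ := h3
    _ ≤ ε / 2 * X + ε / 2 * X := add_le_add h2 h1
    _ = ε * X := by ring

end

/-- finite unions -/
theorem null_iUnion {ι : Type*} [Finite ι] (G : ι → ℕ → Prop) (h : ∀ i, Null (G i)) :
    Null (fun p => ∃ i, G i p) := by
  classical
  have := Fintype.ofFinite ι
  have h1 := UD_biUnion Finset.univ G (fun _ => 0) (fun i _ => h i)
  rw [Finset.sum_const_zero] at h1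
  exact UD.mono (e := 0) (e' := 0) h1 (fun p _ hp => by
    obtain ⟨i, hi⟩ := hp
    exact ⟨i, Finset.mem_univ i, hi⟩) le_rfl

/-- **The weighted symmetry holds for almost all primes.** -/
theorem null_BadC {f c : ℕ} [NeZero f] (hG : GapWStmt) (hB : BetaBad f c) (n e : ℕ) :
    Null (BadC f c n e) := by
  classical
  set N := Monoid.exponent (ZMod f)ˣ with hN
  have hN0 : N ≠ 0 := Monoid.exponent_ne_zero_of_finite
  have : NeZero N := ⟨hN0⟩
  obtain ⟨E, _, _, hcyc⟩ : ∃ (E : Type) (_ : Field E) (_ : NumberField E),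
      IsCyclotomicExtension {N} ℚ E :=
    ⟨CyclotomicField N ℚ, inferInstance, inferInstance, CyclotomicField.isCyclotomicExtension N ℚ⟩
  obtain ⟨ζ, hζ⟩ : ∃ ζ : E, IsPrimitiveRoot ζ N :=
    ⟨IsCyclotomicExtension.zeta N ℚ E, IsCyclotomicExtension.zeta_spec N ℚ E⟩
  have hc1 : Nat.card (rootsOfUnity N (𝓞 E)) = N := hζ.toInteger_isPrimitiveRoot.card_rootsOfUnity
  have hf1 : Finite (rootsOfUnity N (𝓞 E)) :=
    Nat.finite_of_card_ne_zero (by rw [hc1]; exact NeZero.ne N)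
  have hf2 : Finite ((ZMod f)ˣ →* rootsOfUnity N (𝓞 E)) :=
    Finite.of_injective (fun κ => (κ : (ZMod f)ˣ → rootsOfUnity N (𝓞 E))) DFunLike.coe_injective
  -- the exponents
  have hpow : ∀ (κ : (ZMod f)ˣ →* rootsOfUnity N (𝓞 E)) (g : (ZMod f)ˣ), ∃ i : ℕ,
      ((κ g : (𝓞 E)ˣ) : 𝓞 E) = hζ.toInteger ^ i := fun κ g => exists_pow hζ κ g
  choose ex hex using hpow
  let ψ : ((ZMod f)ˣ →* rootsOfUnity N (𝓞 E)) → ((ZMod f)ˣ →* (𝓞 E)ˣ) :=
    fun κ => (rootsOfUnity N (𝓞 E)).subtype.comp κ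
  let I := Σ n' : Fin (n + 1), ((Fin n'.val → (ZMod f)ˣ) × ((ZMod f)ˣ →* rootsOfUnity N (𝓞 E)))
  let G : I → ℕ → Prop := fun i p => (ψ i.2.2) (-1) = (-1) ^ e ∧
    FDBadW e i.1.val 1 (fun v => MvPolynomial.X 0 ^ (ex i.2.2 (i.2.1 v)))
      (fun t => if t = 0 then Polynomial.aeval (MvPolynomial.X 0) (Polynomial.cyclotomic N ℤ) else 0)
      (ZokC f c (ψ i.2.2)) p
  have hnull : ∀ i, Null (G i) := by
    intro i
    by_cases hi : (ψ i.2.2) (-1) = (-1) ^ e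
    · refine Null.mono (H59FD.theoremMW e i.1.val 1 _ _ _
        (gapG_char hG hB (ψ i.2.2) e hi)) fun p _ hp => hp.2
    · exact Null_of_bounded 0 fun p _ hp => absurd hp.1 hi
  have hall := (null_iUnion G hnull).or (Null_of_bounded (G := fun p => p ≤ max 2 N) (max 2 N)
    fun p _ hp => hp)
  refine hall.mono fun p hpp hp => ?_
  by_cases hpN : p ≤ max 2 N
  · exact Or.inr hpN
  left
  push Not at hpN
  obtain ⟨hne, n', hn', Ω, hF, hAC, hch, π, T, χ, hχ, h0, h1, hns, hrel⟩ := hp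
  have hNΩ : (N : Ω) ≠ 0 := by
    intro h
    rw [CharP.cast_eq_zero_iff Ω p] at h
    exact absurd (Nat.le_of_dvd (Nat.pos_of_ne_zero hN0) h)
      (not_le.mpr (lt_of_le_of_lt (le_max_right _ _) hpN))
  have : NeZero (N : Ω) := ⟨hNΩ⟩
  obtain ⟨z, hz⟩ := HasEnoughRootsOfUnity.exists_primitiveRoot Ω N
  obtain ⟨φ, hφ⟩ := exists_hom hz hζ
  obtain ⟨κ, hκ⟩ := exists_char hN.symm hζ φ (by rw [hφ]; exact hz) χ
  have hχκ : χ = (Units.map φ.toMonoidHom).comp (ψ κ) := by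
    ext g
    exact hκ g
  have hκ1 : ψ κ (-1) = (-1) ^ e := by
    have h2 : (ψ κ (-1)) ^ 2 = 1 := by rw [← map_pow, neg_one_sq, map_one]
    have h3 : ((ψ κ (-1) : (𝓞 E)ˣ) : 𝓞 E) ^ 2 = 1 := by
      have := congrArg (fun u : (𝓞 E)ˣ => (u : 𝓞 E)) h2
      simpa using this
    have h4 : φ ((ψ κ (-1) : (𝓞 E)ˣ) : 𝓞 E) = (-1) ^ e := by
      have h5 := congrArg (fun u : Ωˣ => (u : Ω)) hχ
      rw [hχκ] at h5
      simpa using h5
    have hp2 : (2 : Ω) ≠ 0 := by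
      intro h
      have h6 : ((2 : ℕ) : Ω) = 0 := by exact_mod_cast h
      rw [CharP.cast_eq_zero_iff Ω p] at h6
      exact absurd (Nat.le_of_dvd (by norm_num) h6)
        (not_le.mpr (lt_of_le_of_lt (le_max_left _ _) hpN))
    rw [sq, mul_self_eq_one_iff] at h3
    rcases h3 with h5 | h5
    · rw [h5, map_one] at h4
      rcases Nat.even_or_odd e with h6 | h6
      · rw [h6.neg_one_pow]
        exact Units.ext h5
      · rw [h6.neg_one_pow] at h4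
        exact absurd (by linear_combination h4 : (2 : Ω) = 0) hp2
    · rw [h5, map_neg, map_one] at h4
      rcases Nat.even_or_odd e with h6 | h6
      · rw [h6.neg_one_pow] at h4
        exact absurd (by linear_combination -h4 : (2 : Ω) = 0) hp2
      · rw [h6.neg_one_pow]
        exact Units.ext (by rw [h5]; simp)
  have hw : ∀ v, MvPolynomial.aeval (fun _ : Fin 1 => z)
      ((MvPolynomial.X 0 : MvPolynomial (Fin 1) ℤ) ^ (ex κ (π v))) = ((χ (π v) : Ωˣ) : Ω) := by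
    intro v
    rw [map_pow, MvPolynomial.aeval_X, hκ, hex, map_pow, hφ]
  refine ⟨⟨⟨n', by omega⟩, π, κ⟩, hκ1, ?_⟩
  refine ⟨fun m => H99AB.beta Ω f p c (m + 1) χ = 0, ⟨hne, Ω, hF, hch, φ, fun m hm => ?_⟩,
    Ω, hF, hch, T, fun _ => z, ?_, h0, h1, ?_, ?_⟩
  · rw [← hχκ]; exact hm
  · intro t
    dsimp only
    by_cases ht : t = 0
    · rw [if_pos ht, ← Polynomial.aeval_algHom_apply, MvPolynomial.aeval_X, Polynomial.aeval_def,
        Polynomial.eval₂_eq_eval_map, Polynomial.map_cyclotomic]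
      exact hz.isRoot_cyclotomic (Nat.pos_of_ne_zero hN0)
    · rw [if_neg ht, map_zero]
  · simp only [hw]
    exact hns
  · intro m hm1 hm2 hm3
    simp only [hw]
    exact hrel m hm1 hm2 hm3

/-- the twisted relation of index `m + 1`, all characters -/
def Rel (f p c : ℕ) [NeZero (f * p)] {Ω : Type*} [Field Ω] {n : ℕ} (π : Fin n → (ZMod f)ˣ)
    (T : Fin n → Ω) (m : ℕ) : Prop :=
  ∀ χ : (ZMod f)ˣ →* Ωˣ, H99AB.beta Ω f p c (m + 1) χ = 0 ∨
    ∑ v, ((χ (π v) : Ωˣ) : Ω) * LL m (T v) = 0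

/-- the twisted relation of index `m + 1`, even characters -/
def RelE (f p c : ℕ) [NeZero (f * p)] {Ω : Type*} [Field Ω] {n : ℕ} (π : Fin n → (ZMod f)ˣ)
    (T : Fin n → Ω) (m : ℕ) : Prop :=
  ∀ χ : (ZMod f)ˣ →* Ωˣ, χ (-1) = 1 → H99AB.beta Ω f p c (m + 1) χ = 0 ∨
    ∑ v, ((χ (π v) : Ωˣ) : Ω) * LL m (T v) = 0

/-- the bad primes: all twisted relations hold, but `T` is not stable under inversion twisted by
complex conjugation -/
def ABBad (f c n p : ℕ) : Prop :=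
  ∃ (_ : NeZero (f * p)) (n' : ℕ), n' ≤ n ∧ ∃ (Ω : Type) (_ : Field Ω) (_ : IsAlgClosed Ω)
    (_ : CharP Ω p) (π : Fin n' → (ZMod f)ˣ) (T : Fin n' → Ω),
    (∀ v, T v ≠ 0) ∧ (∀ v, T v ≠ 1) ∧ (∀ m, 2 ≤ m → 2 * m + 1 ≤ p → Rel f p c π T m) ∧
    ¬ ∃ σ : Equiv.Perm (Fin n'), ∀ v, π (σ v) = -π v ∧ T (σ v) * T v = 1

/-- the bad primes for the even relations -/
def ABBadE (f c n p : ℕ) : Prop :=
  ∃ (_ : NeZero (f * p)) (n' : ℕ), n' ≤ n ∧ ∃ (Ω : Type) (_ : Field Ω) (_ : IsAlgClosed Ω)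
    (_ : CharP Ω p) (π : Fin n' → (ZMod f)ˣ) (T : Fin n' → Ω),
    (∀ v, T v ≠ 0) ∧ (∀ v, T v ≠ 1) ∧
    (∀ m, Even m → 2 ≤ m → 2 * m + 1 ≤ p → RelE f p c π T m) ∧
    ¬ ∃ σ : Equiv.Perm (Fin n'), ∀ v, (π (σ v) = π v ∨ π (σ v) = -π v) ∧ T (σ v) * T v = 1

/-- `SymW` is `Twist` -/
theorem twist_of_symW {G : Type*} [CommGroup G] {Ω : Type*} [Field Ω] {n e : ℕ} (π : Fin n → G)
    (T : Fin n → Ω) (hT : ∀ v, T v ≠ 0) (c : G) (χ : G →* Ωˣ) (hχ : ((χ c : Ωˣ) : Ω) = (-1) ^ e)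
    (h : SymW e T (fun v => ((χ (π v) : Ωˣ) : Ω))) : H85AB.Twist π T c χ := by
  classical
  intro τ
  by_cases hτ : τ = 0
  · subst hτ
    rw [inv_zero, Finset.filter_false_of_mem (fun v _ => hT v), Finset.sum_empty, mul_zero]
  · have h1 := h τ
    rw [hχ]
    have h2 : univ.filter (fun v => T v = τ⁻¹) = univ.filter (fun v => T v * τ = 1) := by
      ext v
      simp only [mem_filter, mem_univ, true_and]
      rw [mul_eq_one_iff_eq_inv₀ hτ]
    convert h1 using 3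

/-- **D1**: twisted inversion stability for almost all primes. -/
theorem null_ABBad {f c : ℕ} [NeZero f] (hG : GapWStmt) (hB : BetaBad f c) (n : ℕ) :
    Null (ABBad f c n) := by
  classical
  set M := max (max 2 n) (max (Monoid.exponent (ZMod f)ˣ) (Fintype.card (ZMod f)ˣ)) with hM
  have hall := ((null_BadC hG hB n 0).or (null_BadC hG hB n 1)).or
    (Null_of_bounded (G := fun p => p ≤ M) M fun p _ hp => hp)
  refine hall.mono fun p hpp hp => ?_
  by_contra hcon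
  push Not at hcon
  obtain ⟨⟨hb0, hb1⟩, hpM⟩ := hcon
  obtain ⟨hne, n', hn', Ω, hF, hAC, hch, π, T, h0, h1, hrel, hns⟩ := hp
  have hcast : ∀ a : ℕ, a ≠ 0 → a ≤ M → (a : Ω) ≠ 0 := by
    intro a ha haM h
    rw [CharP.cast_eq_zero_iff Ω p] at h
    exact absurd (Nat.le_of_dvd (Nat.pos_of_ne_zero ha) h) (by omega)
  have hex : NeZero ((Monoid.exponent (ZMod f)ˣ : ℕ) : Ω) :=
    ⟨hcast _ Monoid.exponent_ne_zero_of_finite ((le_max_left _ _).trans (le_max_right _ _))⟩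
  have hcd : ((Fintype.card (ZMod f)ˣ : ℕ) : Ω) ≠ 0 :=
    hcast _ Fintype.card_ne_zero ((le_max_right _ _).trans (le_max_right _ _))
  apply hns
  have hn2 : n ≤ M := (le_max_right _ _).trans (le_max_left _ _)
  have hlt : Fintype.card (Fin n') < p := by
    rw [Fintype.card_fin]; omega
  have hsym : ∀ χ : (ZMod f)ˣ →* Ωˣ, H85AB.Twist π T (-1) χ := by
    intro χ
    have h2 : χ (-1) = 1 ∨ χ (-1) = -1 := by
      have h3 : (χ (-1)) ^ 2 = 1 := by rw [← map_pow, neg_one_sq, map_one]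
      have h4 : ((χ (-1) : Ωˣ) : Ω) ^ 2 = 1 := by
        have := congrArg (fun u : Ωˣ => (u : Ω)) h3
        simpa using this
      rw [sq, mul_self_eq_one_iff] at h4
      rcases h4 with h5 | h5
      · exact Or.inl (Units.ext h5)
      · exact Or.inr (Units.ext (by rw [h5]; simp))
    rcases h2 with h2 | h2
    · refine twist_of_symW (e := 0) π T h0 (-1) χ (by rw [h2]; simp) ?_
      by_contra hns2
      exact hb0 ⟨hne, n', hn', Ω, hF, hAC, hch, π, T, χ, by rw [h2, pow_zero], h0, h1, hns2,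
        fun m _ hm2 hm3 => hrel m hm2 hm3 χ⟩
    · refine twist_of_symW (e := 1) π T h0 (-1) χ (by rw [h2]; simp) ?_
      by_contra hns2
      exact hb1 ⟨hne, n', hn', Ω, hF, hAC, hch, π, T, χ, by rw [h2, pow_one], h0, h1, hns2,
        fun m _ hm2 hm3 => hrel m hm2 hm3 χ⟩
  obtain ⟨σ, hσ⟩ := perm_of_twist_p hlt hcd π T (-1) h0 hsym
  exact ⟨σ, fun v => ⟨by rw [(hσ v).1, neg_one_mul], (hσ v).2⟩⟩

/-- **D1, even characters**: inversion stability up to complex conjugation for almost all primes. -/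
theorem null_ABBadE {f c : ℕ} [NeZero f] (hG : GapWStmt) (hB : BetaBad f c) (n : ℕ) :
    Null (ABBadE f c n) := by
  classical
  let H : Subgroup (ZMod f)ˣ := Subgroup.zpowers (-1)
  let Q := (ZMod f)ˣ ⧸ H
  have hQf : Finite Q := inferInstance
  have hQF : Fintype Q := Fintype.ofFinite Q
  set M := max (max 2 n) (max (Monoid.exponent Q) (Fintype.card Q)) with hM
  have hall := (null_BadC hG hB n 0).or
    (Null_of_bounded (G := fun p => p ≤ M) M fun p _ hp => hp)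
  refine hall.mono fun p hpp hp => ?_
  by_contra hcon
  push Not at hcon
  obtain ⟨hb0, hpM⟩ := hcon
  obtain ⟨hne, n', hn', Ω, hF, hAC, hch, π, T, h0, h1, hrel, hns⟩ := hp
  have hcast : ∀ a : ℕ, a ≠ 0 → a ≤ M → (a : Ω) ≠ 0 := by
    intro a ha haM h
    rw [CharP.cast_eq_zero_iff Ω p] at h
    exact absurd (Nat.le_of_dvd (Nat.pos_of_ne_zero ha) h) (by omega)
  have hexQ : Monoid.exponent Q ≠ 0 := Monoid.exponent_ne_zero_of_finite (G := Q)
  have hex : NeZero ((Monoid.exponent Q : ℕ) : Ω) :=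
    ⟨hcast _ hexQ ((le_max_left _ _).trans (le_max_right _ _))⟩
  have hcd : ((Fintype.card Q : ℕ) : Ω) ≠ 0 :=
    hcast _ Fintype.card_ne_zero ((le_max_right _ _).trans (le_max_right _ _))
  apply hns
  have hn2 : n ≤ M := (le_max_right _ _).trans (le_max_left _ _)
  have hlt : Fintype.card (Fin n') < p := by
    rw [Fintype.card_fin]; omega
  have hneg : (-1 : (ZMod f)ˣ) ∈ H := Subgroup.mem_zpowers _
  have hsym : ∀ χ : Q →* Ωˣ, H85AB.Twist (fun v => (QuotientGroup.mk (π v) : Q)) T 1 χ := by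
    intro χ
    set χ' : (ZMod f)ˣ →* Ωˣ := χ.comp (QuotientGroup.mk' H) with hχ'
    have h2 : χ' (-1) = 1 := by
      rw [hχ', MonoidHom.comp_apply, QuotientGroup.mk'_apply,
        (QuotientGroup.eq_one_iff (-1 : (ZMod f)ˣ)).mpr hneg, map_one]
    refine twist_of_symW (G := Q) (e := 0) (fun v => (QuotientGroup.mk (π v) : Q)) T h0 1 χ
      (by rw [map_one, Units.val_one, pow_zero]) ?_
    by_contra hns2
    exact hb0 ⟨hne, n', hn', Ω, hF, hAC, hch, π, T, χ', by rw [h2, pow_zero], h0, h1, hns2,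
      fun m hm1 hm2 hm3 => hrel m (Nat.even_iff.mpr hm1) hm2 hm3 χ' h2⟩
  obtain ⟨σ, hσ⟩ := perm_of_twist_p hlt hcd (fun v => (QuotientGroup.mk (π v) : Q)) T 1 h0 hsym
  refine ⟨σ, fun v => ⟨?_, (hσ v).2⟩⟩
  have h3 : (QuotientGroup.mk (π (σ v)) : Q) = QuotientGroup.mk (π v) :=
    ((hσ v).1).trans (one_mul (M := Q) _)
  rw [QuotientGroup.eq] at h3
  obtain ⟨i, hi⟩ := Subgroup.mem_zpowers_iff.mp h3
  have h4 : π v = π (σ v) * (-1) ^ i := by rw [hi]; group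
  rcases Int.even_or_odd i with h5 | h5
  · rw [h5.neg_one_zpow, mul_one] at h4
    exact Or.inl h4.symm
  · rw [h5.neg_one_zpow, mul_neg_one] at h4
    exact Or.inr (by rw [h4, neg_neg])

end H59AB
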