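import Pool.Agent.H59.AB.Main
import Pool.Agent.H99.AB.Lam

/-!
# Project AB, D1: the bridge of helper99
-/

open Finset NumberField

namespace H59AB

open Pool.Agent.H71.FD

/-- the bridge -/
theorem betaBad {f c : ℕ} (hc : c.Prime) (hcf : ¬ c ∣ f) (hf : 2 ≤ f) : BetaBad f c := by
  intro k _ _ ψ
  refine ⟨c * f, H99AB.wt f c (MulChar.ofUnitHom ψ), H99AB.exists_wt_ne k f c hc hf ψ, c * f,
    fun p hp hpB hne Ω hF hch φ w V hV h => ?_⟩
  have : Fact p.Prime := ⟨hp⟩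
  refine H99AB.badW_of_beta k f c p hc hcf hf hpB ψ Ω φ w V (by omega) fun j h1 h2 h3 => ?_
  exact h j h1 h2 (Units.ext (by rw [h3]; simp))

/-- **D1** from the gap theorem -/
theorem null_AB {f c : ℕ} (hG : GapWStmt) (hc : c.Prime) (hcf : ¬ c ∣ f) (hf : 2 ≤ f) (n : ℕ) :
    Null (ABBad f c n) :=
  have : NeZero f := ⟨by omega⟩
  null_ABBad hG (betaBad hc hcf hf) n

/-- **D1**, even characters, from the gap theorem -/
theorem null_ABE {f c : ℕ} (hG : GapWStmt) (hc : c.Prime) (hcf : ¬ c ∣ f) (hf : 2 ≤ f) (n : ℕ) :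
    Null (ABBadE f c n) :=
  have : NeZero f := ⟨by omega⟩
  null_ABBadE hG (betaBad hc hcf hf) n

end H59AB
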