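import Pool.Agent.H85.AB.End

/-!
# Project AB, D1: characters of a finite commutative group with values in `Ω` come from characters
with values in the roots of unity of `ℤ[ζ_N]`; the permutation in characteristic `p`
-/

open Finset NumberField

namespace H59AB

section chars

variable {N : ℕ} [NeZero N] {E : Type*} [Field E] [NumberField E] [IsCyclotomicExtension {N} ℚ E]

/-- the homomorphism `ℤ[ζ] → Ω`, `ζ ↦ z` -/
theorem exists_hom {Ω : Type*} [Field Ω] {z : Ω} (hz : IsPrimitiveRoot z N)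
    {ζ : E} (hζ : IsPrimitiveRoot ζ N) :
    ∃ φ : 𝓞 E →+* Ω, φ hζ.toInteger = z := by
  have hN : 0 < N := Nat.pos_of_ne_zero (NeZero.ne N)
  have h0 : Polynomial.aeval z (minpoly ℤ hζ.integralPowerBasis.gen) = 0 := by
    rw [hζ.integralPowerBasis_gen]
    have h1 : minpoly ℤ hζ.toInteger = Polynomial.cyclotomic N ℤ := by
      rw [Polynomial.cyclotomic_eq_minpoly hζ hN]
      exact (minpoly.algebraMap_eq (A := ℤ) (B := 𝓞 E) (B' := E) RingOfIntegers.coe_injective
        hζ.toInteger).symm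
    rw [h1, Polynomial.aeval_def, Polynomial.eval₂_eq_eval_map, Polynomial.map_cyclotomic]
    exact hz.isRoot_cyclotomic hN
  refine ⟨(hζ.integralPowerBasis.lift z h0).toRingHom, ?_⟩
  have h2 := hζ.integralPowerBasis.lift_gen z h0
  rw [hζ.integralPowerBasis_gen] at h2
  exact h2

/-- characters with values in `Ω` lift -/
theorem exists_char {G : Type*} [CommGroup G] (hG : Monoid.exponent G = N)
    {Ω : Type*} [Field Ω] {ζ : E} (hζ : IsPrimitiveRoot ζ N) (φ : 𝓞 E →+* Ω)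
    (hz : IsPrimitiveRoot (φ hζ.toInteger) N) (χ : G →* Ωˣ) :
    ∃ κ : G →* rootsOfUnity N (𝓞 E), ∀ g, ((χ g : Ωˣ) : Ω) = φ ((κ g : (𝓞 E)ˣ) : 𝓞 E) := by
  have hζ' := hζ.toInteger_isPrimitiveRoot
  have hc1 : Nat.card (rootsOfUnity N (𝓞 E)) = N := hζ'.card_rootsOfUnity
  have hc2 : Nat.card (rootsOfUnity N Ω) = N := hz.card_rootsOfUnity
  let ρ : rootsOfUnity N (𝓞 E) →* rootsOfUnity N Ω := restrictRootsOfUnity φ N
  have hf1 : Finite (rootsOfUnity N (𝓞 E)) := Nat.finite_of_card_ne_zero (by rw [hc1]; exact NeZero.ne N)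
  have hf2 : Finite (rootsOfUnity N Ω) := Nat.finite_of_card_ne_zero (by rw [hc2]; exact NeZero.ne N)
  have hsurj : Function.Surjective ρ := by
    intro y
    have hy : ((y : Ωˣ) : Ω) ^ N = 1 := by
      have := y.2
      rw [mem_rootsOfUnity'] at this
      exact this
    obtain ⟨i, -, hi⟩ := hz.eq_pow_of_pow_eq_one hy
    refine ⟨hζ'.toRootsOfUnity ^ i, ?_⟩
    apply Subtype.ext
    apply Units.ext
    rw [← hi]
    simp [ρ]
  have hbij : Function.Bijective ρ := by
    rw [Nat.bijective_iff_surjective_and_card]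
    exact ⟨hsurj, by rw [hc1, hc2]⟩
  let e : rootsOfUnity N (𝓞 E) ≃* rootsOfUnity N Ω := MulEquiv.ofBijective ρ hbij
  have hχ : ∀ g, χ g ∈ rootsOfUnity N Ω := by
    intro g
    rw [mem_rootsOfUnity, ← map_pow, ← hG, Monoid.pow_exponent_eq_one, map_one]
  let χ' : G →* rootsOfUnity N Ω := χ.codRestrict _ hχ
  refine ⟨e.symm.toMonoidHom.comp χ', fun g => ?_⟩
  have h1 : e (e.symm (χ' g)) = χ' g := e.apply_symm_apply _
  have h2 : ((e (e.symm (χ' g)) : Ωˣ) : Ω) = φ ((e.symm (χ' g) : (𝓞 E)ˣ) : 𝓞 E) := rfl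
  rw [h1] at h2
  exact h2

/-- the values are powers of `ζ` -/
theorem exists_pow {G : Type*} [CommGroup G] {ζ : E} (hζ : IsPrimitiveRoot ζ N)
    (κ : G →* rootsOfUnity N (𝓞 E)) (g : G) :
    ∃ i : ℕ, ((κ g : (𝓞 E)ˣ) : 𝓞 E) = hζ.toInteger ^ i := by
  have hy : (((κ g : rootsOfUnity N (𝓞 E)) : (𝓞 E)ˣ) : 𝓞 E) ^ N = 1 := by
    have := (κ g).2
    rw [mem_rootsOfUnity'] at this
    exact this
  obtain ⟨i, -, hi⟩ := hζ.toInteger_isPrimitiveRoot.eq_pow_of_pow_eq_one hy
  exact ⟨i, hi.symm⟩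

end chars

open H85AB in
/-- characteristic `p > |α|`: the permutation -/
theorem perm_of_twist_p {G : Type*} [CommGroup G] [Fintype G] {Ω : Type*} [Field Ω] {α : Type*}
    [Fintype α] {p : ℕ} [CharP Ω p] (hp : Fintype.card α < p)
    [HasEnoughRootsOfUnity Ω (Monoid.exponent G)] (hG : (Fintype.card G : Ω) ≠ 0) (π : α → G)
    (T : α → Ω) (c : G) (hT : ∀ v, T v ≠ 0) (h : ∀ χ : G →* Ωˣ, Twist π T c χ) :
    ∃ σ : Equiv.Perm α, ∀ v, π (σ v) = c * π v ∧ T (σ v) * T v = 1 := by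
  classical
  have hc := count_of_twist hG π T c h
  let f : α → Ω × G := fun v => ((T v)⁻¹, c * π v)
  let g : α → Ω × G := fun v => (T v, π v)
  have hfg : ∀ x : Ω × G, Fintype.card {a // f a = x} = Fintype.card {b // g b = x} := by
    rintro ⟨τ, w⟩
    rw [Fintype.card_subtype, Fintype.card_subtype]
    have h1 := hc w τ
    have hcard : ∀ s : Finset α, s.card ∈ Set.Iio p := fun s =>
      lt_of_le_of_lt (Finset.card_le_univ s) hp
    have h2 := CharP.natCast_injOn_Iio Ω p (hcard _) (hcard _) h1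
    have e1 : (univ.filter (fun v => g v = (τ, w))) = univ.filter (fun v => T v = τ ∧ π v = w) := by
      ext v
      simp [g]
    have e2 : (univ.filter (fun v => f v = (τ, w)))
        = univ.filter (fun v => T v = τ⁻¹ ∧ c * π v = w) := by
      ext v
      simp only [f, mem_filter, mem_univ, true_and, Prod.mk.injEq]
      rw [inv_eq_iff_eq_inv]
    rw [e1, e2, h2]
  let e : ∀ x : Ω × G, {a // f a = x} ≃ {b // g b = x} := fun x =>
    Fintype.equivOfCardEq (hfg x)
  refine ⟨Equiv.ofFiberEquiv e, fun v => ?_⟩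
  have h1 := Equiv.ofFiberEquiv_map e v
  simp only [f, g, Prod.mk.injEq] at h1
  refine ⟨h1.2, ?_⟩
  rw [h1.1]
  exact inv_mul_cancel₀ (hT v)

end H59AB
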